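import Pool.Agent.K1H82.KR.Loc
import Pool.Agent.K1H82.KQ.Fin

/-!
# Finiteness of the set of the local ideals
-/

set_option autoImplicit false
set_option linter.unusedSectionVars false

open MvPolynomial Pool.Agent.TH954.X Pool.Agent.K1H82.KM Filter Topology
open Pool.Agent.K1H82.KQ (EndAlg sg Val1 eI mI mI_pos mI_mem mul_eI torB)

namespace Pool.Agent.K1H82.KR

section defs

variable {K : Type} [Field K] {N : ℕ}

/-- The ideal of the local Zariski closure at `x` of the rational points of `X` outside the closed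
set defined by `eqW`. -/
def LocalIdealOff (eqX eqW : Set (MvPolynomial (Fin N) K)) {L : Type} [NormedField L]
    (σ : K →+* L) (x : Fin N → L) : Set (MvPolynomial (Fin N) K) :=
  {f | ∃ U ∈ nhds x, ∀ y : Fin N → K, y ≠ 0 → (∀ g ∈ eqX, eval y g = 0) →
    (∃ h ∈ eqW, eval y h ≠ 0) →
    (∃ c : L, c ≠ 0 ∧ (fun i => c * σ (y i)) ∈ U) → ∀ a : K, eval (a • y) f = 0}

/-- the ideals of the local Zariski closures of the set of the rational points of `X` outside `W`,
at all the points of `X` over `L` -/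
def LocalIdealsOff (eqX eqW : Set (MvPolynomial (Fin N) K)) {L : Type} [NormedField L]
    (σ : K →+* L) : Set (Set (MvPolynomial (Fin N) K)) :=
  {J | ∃ x : Fin N → L, x ≠ 0 ∧ (∀ g ∈ eqX, eval₂ σ x g = 0) ∧ J = LocalIdealOff eqX eqW σ x}

lemma eval2_mul_vec {L : Type} [Field L] (σ : K →+* L) {g : MvPolynomial (Fin N) K} {d : ℕ}
    (hg : g.IsHomogeneous d) (c : L) (y : Fin N → K) :
    eval₂ σ (fun i => c * σ (y i)) g = c ^ d * σ (eval y g) := by
  let _ : Algebra K L := σ.toAlgebra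
  have h1 : eval₂ σ (fun i => c * σ (y i)) g = aeval (c • fun i => algebraMap K L (y i)) g := rfl
  have h2 : aeval (fun i => algebraMap K L (y i)) g = algebraMap K L (aeval y g) :=
    MvPolynomial.aeval_algebraMap_apply (A := K) L y g
  rw [h1, aeval_smul' hg, h2, aeval_eq_eval]
  rfl

/-- If `W` has only finitely many local ideals, then `X` has only finitely many. -/
theorem fin_of_off {eqX eqW : Set (MvPolynomial (Fin N) K)}
    (hW : ∀ g ∈ eqW, ∃ d, g.IsHomogeneous d) {L : Type} [NontriviallyNormedField L]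
    (σ : K →+* L) (h1 : (LocalIdealsOff eqX eqW σ).Finite)
    (h2 : (LocalIdeals (eqX ∪ eqW) σ).Finite) : (LocalIdeals eqX σ).Finite := by
  classical
  refine (h1.image2 (fun I J => I ∩ J) (h2.union (Set.finite_singleton Set.univ))).subset ?_
  rintro _ ⟨x, hx0, hx, rfl⟩
  have hI : LocalIdeal eqX σ x = LocalIdealOff eqX eqW σ x ∩ LocalIdeal (eqX ∪ eqW) σ x := by
    ext f
    constructor
    · rintro ⟨U, hU, hf⟩
      refine ⟨⟨U, hU, fun y hy he _ hc a => hf y hy he hc a⟩,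
        ⟨U, hU, fun y hy he hc a => hf y hy (fun g hg => he g (Or.inl hg)) hc a⟩⟩
    · rintro ⟨⟨U, hU, hf⟩, ⟨U', hU', hf'⟩⟩
      refine ⟨U ∩ U', inter_mem hU hU', fun y hy he hc a => ?_⟩
      obtain ⟨c, hc, hcU⟩ := hc
      by_cases h : ∃ h ∈ eqW, eval y h ≠ 0
      · exact hf y hy he h ⟨c, hc, hcU.1⟩ a
      · push Not at h
        refine hf' y hy (fun g hg => ?_) ⟨c, hc, hcU.2⟩ a
        rcases hg with hg | hg
        · exact he g hg
        · exact h g hg
  rw [hI]
  refine ⟨_, ⟨x, hx0, hx, rfl⟩, _, ?_, rfl⟩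
  by_cases h : ∀ g ∈ eqW, eval₂ σ x g = 0
  · refine Or.inl ⟨x, hx0, fun g hg => ?_, rfl⟩
    rcases hg with hg | hg
    · exact hx g hg
    · exact h g hg
  · right
    push Not at h
    obtain ⟨g, hg, hgx⟩ := h
    obtain ⟨d, hd⟩ := hW g hg
    rw [Set.mem_singleton_iff, Set.eq_univ_iff_forall]
    intro f
    have hc : Continuous fun v : Fin N → L => eval₂ σ v g := by
      have : (fun v : Fin N → L => eval₂ σ v g) = fun v => eval v (MvPolynomial.map σ g) := by
        funext v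
        rw [eval₂_eq_eval_map]
      rw [this]
      exact MvPolynomial.continuous_eval _
    refine ⟨{v | eval₂ σ v g ≠ 0}, (isOpen_ne_fun hc continuous_const).mem_nhds hgx, ?_⟩
    rintro y - he ⟨c, -, hcU⟩
    exfalso
    apply hcU
    rw [eval2_mul_vec σ hd, he g (Or.inr hg), map_zero, mul_zero]

end defs

variable {K : Type} [Field K] {n N : ℕ} {A : AbVar K n} {E : EndAlg A} {G : Type} [Group G]

lemma ZIe_eq (X : QuotR E N G) {P P' Q : A.Pt (AlgebraicClosure K)} {e : E.R}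
    (h : P' = P + E.act e Q) : ZIe X P' e = ZIe X P e := by
  ext f
  constructor
  · intro hf Q0 z hz
    refine hf (Q0 - Q) z ?_
    have : P' + E.act e (Q0 - Q) = P + E.act e Q0 := by
      rw [h, map_sub]
      abel
    rw [this]
    exact hz
  · intro hf Q0 z hz
    refine hf (Q + Q0) z ?_
    have : P + E.act e (Q + Q0) = P' + E.act e Q0 := by
      rw [h, map_add]
      abel
    rw [this]
    exact hz

section fin

variable [Fintype G]

lemma fin_coset (X : QuotR E N G) (e : E.R) {m : ℕ} (hm : 0 < m)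
    (T : A.Pt (AlgebraicClosure K)) :
    {I : Set (MvPolynomial (Fin N) K) | ∃ P : A.Pt (AlgebraicClosure K),
      E.act ((m : E.R) - e) (Fintype.card G • P - cen X) = T ∧ I = ZIe X P e}.Finite := by
  by_cases hne : ∃ P0 : A.Pt (AlgebraicClosure K),
      E.act ((m : E.R) - e) (Fintype.card G • P0 - cen X) = T
  · obtain ⟨P0, hP0⟩ := hne
    have hM : 0 < m * Fintype.card G := Nat.mul_pos hm Fintype.card_pos
    refine ((E.tor _ hM).image (fun w => ZIe X (P0 + w) e)).subset ?_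
    rintro _ ⟨P, hP, rfl⟩
    obtain ⟨Q, hQ⟩ := A.div (AlgebraicClosure K) (Fintype.card G • (P - P0))
      (m * Fintype.card G) hM
    have hQ' : (m * Fintype.card G) • Q = Fintype.card G • (P - P0) := hQ
    have h1 : E.act ((m : E.R) - e) (Fintype.card G • (P - P0)) = 0 := by
      have h2 : Fintype.card G • (P - P0) = (Fintype.card G • P - cen X) -
          (Fintype.card G • P0 - cen X) := by
        rw [smul_sub]
        abel
      rw [h2, map_sub, hP, hP0, sub_self]
    rw [act_sub, act_natCast, sub_eq_zero, smul_smul, ← hQ', map_nsmul] at h1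
    refine ⟨P - P0 - E.act e Q, ?_, ?_⟩
    · change (m * Fintype.card G) • (P - P0 - E.act e Q) = 0
      rw [smul_sub, h1, sub_self]
    · refine (ZIe_eq X (Q := Q) ?_).symm
      abel
  · refine Set.finite_empty.subset ?_
    rintro _ ⟨P, hP, -⟩
    exact absurd ⟨P, hP⟩ hne

/-- the ideals which occur -/
def Typ1 (X : QuotR E N G) : Set (Set (MvPolynomial (Fin N) K)) :=
  {I | ∃ (P : A.Pt (AlgebraicClosure K)) (y : Fin N → K), Val1 X.Fam P.1 (up y) ∧
    Off X.eqW (up y) ∧ I = ZIe X P (eI E (an X P))}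

theorem typ1_fin [NumberField K] (X : QuotR E N G) : (Typ1 X).Finite := by
  classical
  have hT := torB A (E.gal_fin.toFinset.card * Fintype.card G)
  refine (((an_fin X)).biUnion (t := fun I0 => ⋃ T ∈ {T : A.Pt (AlgebraicClosure K) |
      (∃ k : ℕ, 0 < k ∧ k • T = 0) ∧ ∃ s : Finset (A.Pt (AlgebraicClosure K)),
        s.card ≤ E.gal_fin.toFinset.card * Fintype.card G ∧ ∀ σ, sg A σ T ∈ s},
    {I : Set (MvPolynomial (Fin N) K) | ∃ P : A.Pt (AlgebraicClosure K),
      E.act ((mI E I0 : E.R) - eI E I0) (Fintype.card G • P - cen X) = T ∧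
        I = ZIe X P (eI E I0)}) (fun I0 _ => hT.biUnion (fun T _ =>
      fin_coset X (eI E I0) (mI_pos I0) T))).subset ?_
  rintro _ ⟨P, y, hy, ho, rfl⟩
  set a : E.R := (mI E (an X P) : E.R) - eI E (an X P) with ha
  refine Set.mem_biUnion (x := an X P) ⟨P, rfl⟩ (Set.mem_biUnion
    (x := E.act a (Fintype.card G • P - cen X)) ?_ ⟨P, rfl, rfl⟩)
  refine ⟨(mem_an X P a).1 (mI_mem (an X P)) _ (nP_mem X P), ?_⟩
  set F : RingAut E.S × G → A.Pt (AlgebraicClosure K) := fun p =>
    if h : p.1 a ∈ E.R then E.act ⟨p.1 a, h⟩ (Fintype.card G • ap X p.2 P - cen X) else 0 with hF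
  refine ⟨(E.gal_fin.toFinset ×ˢ Finset.univ).image F, ?_, fun σ => ?_⟩
  · refine Finset.card_image_le.trans ?_
    rw [Finset.card_product, Finset.card_univ]
  · obtain ⟨g, hg⟩ := conj_ap X hy ho σ
    rw [Finset.mem_image]
    refine ⟨(E.gal σ, g), ?_, ?_⟩
    · rw [Finset.mem_product]
      exact ⟨E.gal_fin.mem_toFinset.2 ⟨σ, rfl⟩, Finset.mem_univ _⟩
    · have h1 : (E.gal σ) (a : E.S) ∈ E.R := E.gal_mem σ a a.2
      simp only [hF]
      rw [dif_pos h1, sg_act, map_sub (sg A σ), map_nsmul, sg_cen, hg]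

theorem main1 [NumberField K] (X : QuotR E N G) {L : Type}
    [NontriviallyNormedField L] [CompleteSpace L] (σ : K →+* L) (hσ : DenseRange σ) :
    (LocalIdealsOff X.eqX X.eqW σ).Finite := by
  refine (((typ1_fin X).powerset).image (fun S => {f | ∀ I ∈ S, f ∈ I})).subset ?_
  rintro _ ⟨x, hx0, hx, rfl⟩
  -- the types which occur in every neighbourhood
  set S : Set (Set (MvPolynomial (Fin N) K)) := {I | I ∈ Typ1 X ∧ ∀ U ∈ 𝓝 x,
    ∃ (P : A.Pt (AlgebraicClosure K)) (y : Fin N → K), Val1 X.Fam P.1 (up y) ∧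
      Off X.eqW (up y) ∧
      (∃ c : L, c ≠ 0 ∧ (fun i => c * σ (y i)) ∈ U) ∧ I = ZIe X P (eI E (an X P))} with hS
  refine ⟨S, fun I hI => hI.1, ?_⟩
  ext f
  constructor
  · intro hf
    have hU : ∀ I ∈ Typ1 X, ∃ U ∈ 𝓝 x, I ∉ S →
        ¬ ∃ (P : A.Pt (AlgebraicClosure K)) (y : Fin N → K), Val1 X.Fam P.1 (up y) ∧
          Off X.eqW (up y) ∧
          (∃ c : L, c ≠ 0 ∧ (fun i => c * σ (y i)) ∈ U) ∧ I = ZIe X P (eI E (an X P)) := by
      intro I hI
      by_cases hIS : I ∈ S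
      · exact ⟨Set.univ, univ_mem, fun h => absurd hIS h⟩
      · have h1 : ¬ ∀ U ∈ 𝓝 x, ∃ (P : A.Pt (AlgebraicClosure K)) (y : Fin N → K),
            Val1 X.Fam P.1 (up y) ∧ Off X.eqW (up y) ∧
              (∃ c : L, c ≠ 0 ∧ (fun i => c * σ (y i)) ∈ U) ∧
              I = ZIe X P (eI E (an X P)) := fun h => hIS ⟨hI, h⟩
        simp only [not_forall] at h1
        obtain ⟨U, hU, hU'⟩ := h1
        exact ⟨U, hU, fun _ => hU'⟩
    choose! U hU hUI using hU
    refine ⟨⋂ I ∈ Typ1 X, U I, (Filter.biInter_mem (typ1_fin X)).2 hU, ?_⟩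
    intro y hy0 hye hyo hyU a
    obtain ⟨c, hc, hcU⟩ := hyU
    have hup0 : up y ≠ 0 := by
      intro h0
      apply hy0
      funext i
      have := congrFun h0 i
      exact (map_eq_zero_iff _ (algebraMap K (AlgebraicClosure K)).injective).1 this
    have ho : Off X.eqW (up y) := off_up.2 hyo
    obtain ⟨P, hP⟩ := X.surj (up y) hup0 (fun g hg => (eval_up_iff y g).2 (hye g hg)) ho
    have hT : ZIe X P (eI E (an X P)) ∈ Typ1 X := ⟨P, y, hP, ho, rfl⟩
    have hIS : ZIe X P (eI E (an X P)) ∈ S := by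
      by_contra hIS
      exact hUI _ hT hIS ⟨P, y, hP, ho, ⟨c, hc, Set.mem_iInter₂.1 hcU _ hT⟩, rfl⟩
    have h2 := hf _ hIS 0 (up y) (by rw [map_zero, add_zero]; exact hP)
      (algebraMap K (AlgebraicClosure K) a)
    have h3 : algebraMap K (AlgebraicClosure K) a • up y = up (a • y) := by
      funext i
      change _ * algebraMap K (AlgebraicClosure K) (y i) =
        algebraMap K (AlgebraicClosure K) (a * y i)
      rw [map_mul]
    rw [h3] at h2
    exact (eval_up_iff _ _).1 h2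
  · rintro ⟨U, hU, hf⟩ I ⟨hI, hI'⟩
    obtain ⟨V, hVU, hV, hxV⟩ := mem_nhds_iff.1 hU
    have hV0 : IsOpen (V ∩ {v | v ≠ 0}) := hV.inter isOpen_ne
    obtain ⟨P, y, hy, ho, ⟨c, hc, hcV⟩, rfl⟩ := hI' (V ∩ {v | v ≠ 0})
      (hV0.mem_nhds ⟨hxV, hx0⟩)
    exact loc1 X σ hσ f hV0 (fun h => h.2 rfl)
      (fun y hy0 hye hyo ⟨c, hc, hcU⟩ a => hf y hy0 hye hyo ⟨c, hc, hVU hcU.1⟩ a) P y hy ho hcV
      (eI E (an X P)) (mul_eI _)

end fin

end Pool.Agent.K1H82.KR
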