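import Pool.Agent.K1H82.KR.Fin
import Pool.Agent.K1H82.KQ.St

/-!
# Varieties birational to quotients of abelian varieties: the definitions used in the statement
-/

set_option autoImplicit false

open MvPolynomial Pool.Agent.TH954.X Pool.Agent.K1H82.KM Filter Topology
open Pool.Agent.K1H82.KQ (EndOf GAct PtB GalK OnX Img actE galE galE_fin toEnd Val1)

namespace Pool.Agent.K1H82.KR

/-- A projective variety `X ⊆ ℙ ^ (N - 1)` over `K` (homogeneous equations `eqX`), a closed subset
`W` of it (homogeneous equations `eqW`) and a rational map over `K` from `A` to `X`, given by the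
tuples of forms in `Fam` (and defined where one of these forms is not zero), the image of which
contains the complement of `W`. -/
structure RMap {K : Type} [Field K] {n : ℕ} (A : AbVar K n) (N : ℕ) where
  eqX : Set (MvPolynomial (Fin N) K)
  homX : ∀ g ∈ eqX, ∃ d, g.IsHomogeneous d
  eqW : Set (MvPolynomial (Fin N) K)
  homW : ∀ g ∈ eqW, ∃ d, g.IsHomogeneous d
  Fam : Finset (Fin N → MvPolynomial (Fin n) K)
  d : ℕ
  Fam_hom : ∀ C ∈ Fam, ∀ c, (C c).IsHomogeneous d
  total : ∀ P : PtB A, Def1 Fam P.1 → ∃ x, OnX eqX x ∧ Img Fam P x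
  surj : ∀ x, OnX eqX x → Off eqW x → ∃ P : PtB A, Img Fam P x

/-- The fibres of the rational map from `A` to `X` over the points over the algebraic closure outside
`W` are the orbits of `G`: the complement of `W` is the quotient by `G` of an open subset of `A`. -/
def IsQuotR {K : Type} [Field K] {n N : ℕ} {A : AbVar K n} {E : EndOf A} {G : Type} [Group G]
    (X : RMap A N) (T : GAct E G) : Prop :=
  ∀ (P Q : PtB A) (x : Fin N → AlgebraicClosure K), Img X.Fam P x → Off X.eqW x →
    (Img X.Fam Q x ↔ ∃ g : G, Q = E.on.act (T.lin g) P + T.tr g)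

/-- The complement of a closed subset in a projective variety in `ℙ ^ (N - 1)` which is the quotient
of an open subset of an abelian variety over `K` by a finite group. -/
structure Piece (K : Type) [Field K] (N : ℕ) where
  n : ℕ
  A : AbVar K n
  E : EndOf A
  G : Type
  [grp : Group G]
  [fin : Finite G]
  T : GAct E G
  X : RMap A N
  quot : IsQuotR X T

attribute [instance] Piece.grp Piece.fin

/-- the coordinate vectors of the rational points of `X` outside `W` -/
def RatPts {K : Type} [Field K] {N : ℕ} (eqX eqW : Set (MvPolynomial (Fin N) K)) :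
    Set (Fin N → K) :=
  {y | y ≠ 0 ∧ (∀ g ∈ eqX, eval y g = 0) ∧ ∃ h ∈ eqW, eval y h ≠ 0}

/-- the quotient in the other form -/
noncomputable def toQuotR {K : Type} [Field K] {n N : ℕ} {A : AbVar K n} {E : EndOf A} {G : Type}
    [Group G] (X : RMap A N) (T : GAct E G) (h : IsQuotR X T) : QuotR (toEnd E) N G where
  eqX := X.eqX
  homX := X.homX
  eqW := X.eqW
  homW := X.homW
  Fam := X.Fam
  d := X.d
  Fam_hom := X.Fam_hom
  lin := { toFun := T.lin, map_one' := T.lin_one, map_mul' := T.lin_mul }
  tr := T.tr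
  tr_mul := T.tr_mul
  galG :=
    { toFun := fun σ =>
        { toFun := T.galG σ
          invFun := T.galG σ⁻¹
          left_inv := fun g => by rw [← T.galG_comp, inv_mul_cancel, T.galG_one]
          right_inv := fun g => by rw [← T.galG_comp, mul_inv_cancel, T.galG_one]
          map_mul' := T.galG_mul σ }
      map_one' := by
        ext g
        exact T.galG_one g
      map_mul' := fun σ τ => by
        ext g
        exact T.galG_comp σ τ g }
  gal_lin := T.gal_lin
  gal_tr := T.gal_tr
  total P hP := by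
    obtain ⟨x, hx, hP⟩ := X.total P hP
    exact ⟨x, hx.1, hx.2, hP⟩
  surj x hx hx' ho := X.surj x ⟨hx, hx'⟩ ho
  fib := h

section cov

variable {K : Type} [Field K] {N : ℕ}

lemma off_univ {eqX eqW : Set (MvPolynomial (Fin N) K)}
    (hX : ∀ g ∈ eqX, ∃ d, g.IsHomogeneous d) {L : Type} [NontriviallyNormedField L]
    (σ : K →+* L) {x : Fin N → L} (hx0 : x ≠ 0) :
    LocalIdealOff eqX eqW σ x ∈ LocalIdealsOff eqX eqW σ ∪ {Set.univ} := by
  by_cases h : ∀ g ∈ eqX, eval₂ σ x g = 0
  · exact Or.inl ⟨x, hx0, h, rfl⟩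
  · right
    push Not at h
    obtain ⟨g, hg, hgx⟩ := h
    obtain ⟨d, hd⟩ := hX g hg
    rw [Set.mem_singleton_iff, Set.eq_univ_iff_forall]
    intro f
    have hc : Continuous fun v : Fin N → L => eval₂ σ v g := by
      have : (fun v : Fin N → L => eval₂ σ v g) = fun v => eval v (MvPolynomial.map σ g) := by
        funext v
        rw [eval₂_eq_eval_map]
      rw [this]
      exact MvPolynomial.continuous_eval _
    refine ⟨{v | eval₂ σ v g ≠ 0}, (isOpen_ne_fun hc continuous_const).mem_nhds hgx, ?_⟩
    rintro y - he - ⟨c, -, hcU⟩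
    exfalso
    apply hcU
    rw [eval2_mul_vec σ hd, he g hg, map_zero, mul_zero]

/-- The sets of rational points which are covered by finitely many pieces. -/
theorem cover [NumberField K] {ι : Type} [Finite ι] (p : ι → Piece K N)
    {eqX eqW : Set (MvPolynomial (Fin N) K)}
    (h : ∀ y, y ∈ RatPts eqX eqW ↔ ∃ i, y ∈ RatPts (p i).X.eqX (p i).X.eqW)
    {L : Type} [NontriviallyNormedField L] [CompleteSpace L] (σ : K →+* L) (hσ : DenseRange σ) :
    (LocalIdealsOff eqX eqW σ).Finite := by
  classical
  have h1 : ∀ i, (LocalIdealsOff (p i).X.eqX (p i).X.eqW σ ∪ {Set.univ}).Finite := fun i => by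
    have := Fintype.ofFinite (p i).G
    exact (main1 (toQuotR (p i).X (p i).T (p i).quot) σ hσ).union (Set.finite_singleton _)
  refine ((Set.Finite.pi' h1).image (fun J => ⋂ i, J i)).subset ?_
  rintro _ ⟨x, hx0, -, rfl⟩
  refine ⟨fun i => LocalIdealOff (p i).X.eqX (p i).X.eqW σ x,
    fun i => off_univ (p i).X.homX σ hx0, ?_⟩
  ext f
  simp only [Set.mem_iInter]
  constructor
  · intro hf
    choose U hU hf using hf
    refine ⟨⋂ i, U i, (Filter.iInter_mem).2 hU, fun y hy he ho hc a => ?_⟩
    obtain ⟨i, hi⟩ := (h y).1 ⟨hy, he, ho⟩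
    obtain ⟨c, hc, hcU⟩ := hc
    exact hf i y hi.1 hi.2.1 hi.2.2 ⟨c, hc, Set.mem_iInter.1 hcU i⟩ a
  · rintro ⟨U, hU, hf⟩ i
    refine ⟨U, hU, fun y hy he ho hc a => ?_⟩
    obtain ⟨-, he', ho'⟩ := (h y).2 ⟨i, hy, he, ho⟩
    exact hf y hy he' ho' hc a

end cov

end Pool.Agent.K1H82.KR
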