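import Pool.Agent.K1H82.KQ.Cls
import Pool.Agent.K1H82.KM.Loc

/-!
# Varieties birational to quotients of abelian varieties by finite groups
-/

set_option autoImplicit false

open MvPolynomial Pool.Agent.TH954.X Pool.Agent.K1H82.KM
open Pool.Agent.K1H82.KQ (EndAlg sg Val1)

namespace Pool.Agent.K1H82.KR

/-- some form in `Fam` does not vanish at `u` -/
def Def1 {K : Type} [Field K] {n N : ℕ} (Fam : Finset (Fin N → MvPolynomial (Fin n) K))
    {F : Type} [Field F] [Algebra K F] (u : Fin n → F) : Prop :=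
  ∃ C ∈ Fam, ∃ c, aeval u (C c) ≠ 0

/-- the point `x` is not in the closed set defined by `eqW` -/
def Off {K : Type} [Field K] {N : ℕ} (eqW : Set (MvPolynomial (Fin N) K))
    {F : Type} [Field F] [Algebra K F] (x : Fin N → F) : Prop :=
  ∃ h ∈ eqW, aeval x h ≠ 0

/-- A projective variety `X ⊆ ℙ ^ (N - 1)` over `K`, a closed subset `W` and a rational map from the
abelian variety `A` to `X` given by the tuples of forms in `Fam`, whose image contains the complement
of `W`, and whose fibres over the complement of `W` are the orbits of the group `G`. -/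
structure QuotR {K : Type} [Field K] {n : ℕ} {A : AbVar K n} (E : EndAlg A) (N : ℕ) (G : Type)
    [Group G] where
  eqX : Set (MvPolynomial (Fin N) K)
  homX : ∀ g ∈ eqX, ∃ d, g.IsHomogeneous d
  eqW : Set (MvPolynomial (Fin N) K)
  homW : ∀ g ∈ eqW, ∃ d, g.IsHomogeneous d
  Fam : Finset (Fin N → MvPolynomial (Fin n) K)
  d : ℕ
  Fam_hom : ∀ C ∈ Fam, ∀ c, (C c).IsHomogeneous d
  lin : G →* E.R
  tr : G → A.Pt (AlgebraicClosure K)
  tr_mul : ∀ g h, tr (g * h) = E.act (lin g) (tr h) + tr g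
  galG : (AlgebraicClosure K ≃ₐ[K] AlgebraicClosure K) →* MulAut G
  gal_lin : ∀ σ g, (lin (galG σ g) : E.S) = E.gal σ (lin g)
  gal_tr : ∀ σ g, tr (galG σ g) = sg A σ (tr g)
  total : ∀ P : A.Pt (AlgebraicClosure K), Def1 Fam P.1 → ∃ x : Fin N → AlgebraicClosure K, x ≠ 0 ∧
    (∀ g ∈ eqX, aeval x g = 0) ∧ Val1 Fam P.1 x
  surj : ∀ x : Fin N → AlgebraicClosure K, x ≠ 0 → (∀ g ∈ eqX, aeval x g = 0) → Off eqW x →
    ∃ P : A.Pt (AlgebraicClosure K), Val1 Fam P.1 x
  fib : ∀ (P Q : A.Pt (AlgebraicClosure K)) (x : Fin N → AlgebraicClosure K),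
    Val1 Fam P.1 x → Off eqW x → (Val1 Fam Q.1 x ↔ ∃ g : G, Q = E.act (lin g) P + tr g)

end Pool.Agent.K1H82.KR
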