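import Pool.Agent.K1H82.KR.Defs

/-!
# The twisted groups of points and their annihilators
-/

set_option autoImplicit false
set_option linter.unusedSectionVars false

open MvPolynomial Pool.Agent.TH954.X Pool.Agent.K1H82.KM
open Pool.Agent.K1H82.KQ (EndAlg sg Val1)

namespace Pool.Agent.K1H82.KR

variable {K : Type} [Field K] {n N : ℕ} {A : AbVar K n} {E : EndAlg A} {G : Type} [Group G]

lemma cns (m : ℕ) (a : E.R) : ((m • a : E.R) : E.S) = m • (a : E.S) := map_nsmul E.R.subtype m a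

lemma csb (a b : E.R) : ((a - b : E.R) : E.S) = (a : E.S) - (b : E.S) := map_sub E.R.subtype a b

lemma cnt (m : ℕ) : ((m : E.R) : E.S) = (m : E.S) := map_natCast E.R.subtype m

lemma sg_mul (σ τ : AlgebraicClosure K ≃ₐ[K] AlgebraicClosure K)
    (P : A.Pt (AlgebraicClosure K)) : sg A (σ * τ) P = sg A σ (sg A τ P) := rfl

lemma sg_one (P : A.Pt (AlgebraicClosure K)) : sg A 1 P = P := rfl

/-- the action of `G` on the points -/
noncomputable def ap (X : QuotR E N G) (g : G) (P : A.Pt (AlgebraicClosure K)) :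
    A.Pt (AlgebraicClosure K) := E.act (X.lin g) P + X.tr g

lemma act_mul (a b : E.R) (P : A.Pt (AlgebraicClosure K)) :
    E.act (a * b) P = E.act a (E.act b P) := by
  rw [map_mul]
  rfl

lemma act_one (P : A.Pt (AlgebraicClosure K)) : E.act 1 P = P := by
  rw [map_one]
  rfl

lemma act_add (a b : E.R) (P : A.Pt (AlgebraicClosure K)) :
    E.act (a + b) P = E.act a P + E.act b P := by
  rw [map_add]
  rfl

lemma act_sub (a b : E.R) (P : A.Pt (AlgebraicClosure K)) :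
    E.act (a - b) P = E.act a P - E.act b P := by
  rw [map_sub]
  rfl

lemma act_nsmul (m : ℕ) (a : E.R) (P : A.Pt (AlgebraicClosure K)) :
    E.act (m • a) P = m • E.act a P := by
  rw [map_nsmul]
  rfl

lemma act_natCast (m : ℕ) (P : A.Pt (AlgebraicClosure K)) : E.act (m : E.R) P = m • P := by
  rw [← nsmul_one, act_nsmul, act_one]

lemma tr_one (X : QuotR E N G) : X.tr 1 = 0 := by
  have h := X.tr_mul 1 1
  rw [mul_one, map_one, act_one] at h
  exact left_eq_add.1 h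

lemma ap_mul (X : QuotR E N G) (g h : G) (P : A.Pt (AlgebraicClosure K)) :
    ap X (g * h) P = ap X g (ap X h P) := by
  unfold ap
  rw [map_mul, act_mul, X.tr_mul, map_add]
  abel

lemma ap_one (X : QuotR E N G) (P : A.Pt (AlgebraicClosure K)) : ap X 1 P = P := by
  unfold ap
  rw [map_one, act_one, tr_one, add_zero]

lemma ap_inv (X : QuotR E N G) (g : G) {P Q : A.Pt (AlgebraicClosure K)} (h : ap X g P = Q) :
    P = ap X g⁻¹ Q := by
  rw [← h, ← ap_mul, inv_mul_cancel, ap_one]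

lemma sg_act (σ : AlgebraicClosure K ≃ₐ[K] AlgebraicClosure K) (α : E.R)
    (P : A.Pt (AlgebraicClosure K)) :
    sg A σ (E.act α P) = E.act ⟨E.gal σ α, E.gal_mem σ α α.2⟩ (sg A σ P) := E.gal_act σ α P

lemma sg_ap (X : QuotR E N G) (σ : AlgebraicClosure K ≃ₐ[K] AlgebraicClosure K) (g : G)
    (P : A.Pt (AlgebraicClosure K)) : sg A σ (ap X g P) = ap X (X.galG σ g) (sg A σ P) := by
  unfold ap
  rw [map_add, sg_act, X.gal_tr]
  congr 3
  exact Subtype.ext (X.gal_lin σ g).symm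

lemma lin_inv (X : QuotR E N G) (g : G) {R R' : A.Pt (AlgebraicClosure K)}
    (h : E.act (X.lin g) R = R') : R = E.act (X.lin g⁻¹) R' := by
  rw [← h, ← act_mul, ← map_mul, inv_mul_cancel, map_one, act_one]

/-- the twisted group: the points `R` with `α_g (σ R) = R` for all `g`, `σ` such that `g • σ P = P`. -/
noncomputable def Mo (X : QuotR E N G) (P : A.Pt (AlgebraicClosure K)) :
    AddSubgroup (A.Pt (AlgebraicClosure K)) where
  carrier := {R | ∀ g σ, ap X g (sg A σ P) = P → E.act (X.lin g) (sg A σ R) = R}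
  zero_mem' := by
    intro g σ _
    rw [map_zero, map_zero]
  add_mem' := by
    intro R R' hR hR' g σ h
    rw [map_add, map_add, hR g σ h, hR' g σ h]
  neg_mem' := by
    intro R hR g σ h
    rw [map_neg, map_neg, hR g σ h]

lemma mem_Mo (X : QuotR E N G) {P R : A.Pt (AlgebraicClosure K)} : R ∈ Mo X P ↔
    ∀ g σ, ap X g (sg A σ P) = P → E.act (X.lin g) (sg A σ R) = R := Iff.rfl

/-- `R` is a torsion point -/
def Tors (R : A.Pt (AlgebraicClosure K)) : Prop := ∃ k : ℕ, 0 < k ∧ k • R = 0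

lemma Tors.add {R R' : A.Pt (AlgebraicClosure K)} (h : Tors R) (h' : Tors R') :
    Tors (R + R') := by
  obtain ⟨k, hk, e⟩ := h
  obtain ⟨k', hk', e'⟩ := h'
  refine ⟨k * k', Nat.mul_pos hk hk', ?_⟩
  rw [smul_add, mul_comm, mul_smul, e, smul_zero, zero_add, mul_comm, mul_smul, e', smul_zero]

lemma Tors.map {R : A.Pt (AlgebraicClosure K)} (h : Tors R)
    (f : A.Pt (AlgebraicClosure K) →+ A.Pt (AlgebraicClosure K)) : Tors (f R) := by
  obtain ⟨k, hk, e⟩ := h
  exact ⟨k, hk, by rw [← map_nsmul, e, map_zero]⟩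

lemma Tors.of_nsmul {R : A.Pt (AlgebraicClosure K)} {m : ℕ} (hm : 0 < m) (h : Tors (m • R)) :
    Tors R := by
  obtain ⟨k, hk, e⟩ := h
  exact ⟨k * m, Nat.mul_pos hk hm, by rw [mul_smul]; exact e⟩

/-- the annihilator of the twisted group -/
noncomputable def an (X : QuotR E N G) (P : A.Pt (AlgebraicClosure K)) : Ideal E.S where
  carrier := {s | ∃ (m : ℕ) (α : E.R), 0 < m ∧ (α : E.S) = m • s ∧
    ∀ R ∈ Mo X P, Tors (E.act α R)}
  zero_mem' := ⟨1, 0, Nat.one_pos, by simp, fun R _ => ⟨1, Nat.one_pos, by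
    rw [map_zero]
    simp⟩⟩
  add_mem' := by
    rintro s s' ⟨m, α, hm, hα, h⟩ ⟨m', α', hm', hα', h'⟩
    refine ⟨m * m', m' • α + m • α', Nat.mul_pos hm hm', ?_, fun R hR => ?_⟩
    · rw [Subring.coe_add, cns, cns, hα, hα', smul_add, smul_smul,
        smul_smul, mul_comm m' m]
    · rw [act_add, act_nsmul, act_nsmul]
      exact ((h R hR).map (nsmulAddMonoidHom m')).add ((h' R hR).map (nsmulAddMonoidHom m))
  smul_mem' := by
    rintro c s ⟨m, α, hm, hα, h⟩
    obtain ⟨k, hk, hkc⟩ := E.mult c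
    refine ⟨k * m, ⟨k • c, hkc⟩ * α, Nat.mul_pos hk hm, ?_, fun R hR => ?_⟩
    · rw [Subring.coe_mul, hα, smul_mul_assoc, mul_smul_comm, smul_smul, smul_eq_mul]
    · rw [act_mul]
      exact (h R hR).map _

lemma mem_an (X : QuotR E N G) (P : A.Pt (AlgebraicClosure K)) (β : E.R) :
    (β : E.S) ∈ an X P ↔ ∀ R ∈ Mo X P, Tors (E.act β R) := by
  constructor
  · rintro ⟨m, α, hm, hα, h⟩ R hR
    have h1 : α = m • β := Subtype.ext (by rw [hα, cns])
    have h2 := h R hR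
    rw [h1, act_nsmul] at h2
    exact h2.of_nsmul hm
  · intro h
    exact ⟨1, β, Nat.one_pos, by rw [one_smul], h⟩

/-- conjugation with `α_g` -/
noncomputable def cj (X : QuotR E N G) (g : G) : RingAut E.S where
  toFun s := (X.lin g : E.S) * s * (X.lin g⁻¹ : E.S)
  invFun s := (X.lin g⁻¹ : E.S) * s * (X.lin g : E.S)
  left_inv s := by
    have h : (X.lin g⁻¹ : E.S) * (X.lin g : E.S) = 1 := by
      rw [← Subring.coe_mul, ← map_mul, inv_mul_cancel, map_one, Subring.coe_one]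
    calc (X.lin g⁻¹ : E.S) * ((X.lin g : E.S) * s * (X.lin g⁻¹ : E.S)) * (X.lin g : E.S)
        = ((X.lin g⁻¹ : E.S) * (X.lin g : E.S)) * s * ((X.lin g⁻¹ : E.S) * (X.lin g : E.S)) := by
          simp only [mul_assoc]
      _ = s := by rw [h, mul_one, one_mul]
  right_inv s := by
    have h : (X.lin g : E.S) * (X.lin g⁻¹ : E.S) = 1 := by
      rw [← Subring.coe_mul, ← map_mul, mul_inv_cancel, map_one, Subring.coe_one]
    calc (X.lin g : E.S) * ((X.lin g⁻¹ : E.S) * s * (X.lin g : E.S)) * (X.lin g⁻¹ : E.S)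
        = ((X.lin g : E.S) * (X.lin g⁻¹ : E.S)) * s * ((X.lin g : E.S) * (X.lin g⁻¹ : E.S)) := by
          simp only [mul_assoc]
      _ = s := by rw [h, mul_one, one_mul]
  map_mul' s s' := by
    have h : (X.lin g⁻¹ : E.S) * (X.lin g : E.S) = 1 := by
      rw [← Subring.coe_mul, ← map_mul, inv_mul_cancel, map_one, Subring.coe_one]
    calc (X.lin g : E.S) * (s * s') * (X.lin g⁻¹ : E.S)
        = (X.lin g : E.S) * s * 1 * s' * (X.lin g⁻¹ : E.S) := by rw [mul_one, mul_assoc _ s s']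
      _ = _ := by rw [← h]; simp only [mul_assoc]
  map_add' s s' := by rw [mul_add, add_mul]

lemma cj_apply (X : QuotR E N G) (g : G) (s : E.S) :
    cj X g s = (X.lin g : E.S) * s * (X.lin g⁻¹ : E.S) := rfl

lemma cj_mul (X : QuotR E N G) (g h : G) : cj X (g * h) = cj X g * cj X h := by
  ext s
  change cj X (g * h) s = cj X g (cj X h s)
  rw [cj_apply, cj_apply, cj_apply, mul_inv_rev, map_mul, map_mul, Subring.coe_mul,
    Subring.coe_mul]
  simp only [mul_assoc]

lemma cj_one (X : QuotR E N G) : cj X 1 = 1 := by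
  ext s
  change cj X 1 s = s
  rw [cj_apply, inv_one, map_one, Subring.coe_one, one_mul, mul_one]

lemma gal_cj (X : QuotR E N G) (σ : AlgebraicClosure K ≃ₐ[K] AlgebraicClosure K) (g : G) :
    E.gal σ * cj X g = cj X (X.galG σ g) * E.gal σ := by
  ext s
  change E.gal σ (cj X g s) = cj X (X.galG σ g) (E.gal σ s)
  rw [cj_apply, cj_apply, map_mul, map_mul, X.gal_lin, ← map_inv, X.gal_lin]

/-- the group of the automorphisms of `S` given by the stabiliser of `P` -/
noncomputable def HP (X : QuotR E N G) (P : A.Pt (AlgebraicClosure K)) :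
    Subgroup (RingAut E.S) where
  carrier := {τ | ∃ g σ, ap X g (sg A σ P) = P ∧ τ = cj X g * E.gal σ}
  one_mem' := ⟨1, 1, by rw [ap_one, sg_one], by rw [cj_one, map_one, one_mul]⟩
  mul_mem' := by
    rintro _ _ ⟨g, σ, h, rfl⟩ ⟨g', σ', h', rfl⟩
    refine ⟨g * X.galG σ g', σ * σ', ?_, ?_⟩
    · rw [ap_mul, sg_mul, ← sg_ap, h', h]
    · rw [cj_mul, map_mul]
      calc cj X g * E.gal σ * (cj X g' * E.gal σ')
          = cj X g * (E.gal σ * cj X g') * E.gal σ' := by simp only [mul_assoc]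
        _ = _ := by rw [gal_cj]; simp only [mul_assoc]
  inv_mem' := by
    rintro _ ⟨g, σ, h, rfl⟩
    refine ⟨X.galG σ⁻¹ g⁻¹, σ⁻¹, ?_, ?_⟩
    · rw [← sg_ap, ← ap_inv X g h, ← sg_mul, inv_mul_cancel, sg_one]
    · rw [mul_inv_rev, ← map_inv, ← gal_cj]
      congr 1
      apply inv_eq_of_mul_eq_one_right
      rw [← cj_mul, mul_inv_cancel, cj_one]

/-- all these automorphisms -/
def Tset (X : QuotR E N G) : Set (RingAut E.S) := {τ | ∃ g σ, τ = cj X g * E.gal σ}

lemma Tset_fin [Finite G] (X : QuotR E N G) : (Tset X).Finite := by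
  refine ((Set.finite_range (cj X)).image2 (fun a b => a * b) E.gal_fin).subset ?_
  rintro _ ⟨g, σ, rfl⟩
  exact ⟨cj X g, ⟨g, rfl⟩, E.gal σ, ⟨σ, rfl⟩, rfl⟩

lemma HP_sub (X : QuotR E N G) (P : A.Pt (AlgebraicClosure K)) :
    (HP X P : Set (RingAut E.S)) ⊆ Tset X := by
  rintro _ ⟨g, σ, -, rfl⟩
  exact ⟨g, σ, rfl⟩

lemma an_stable (X : QuotR E N G) (P : A.Pt (AlgebraicClosure K)) :
    ∀ τ ∈ HP X P, ∀ s ∈ an X P, (τ : RingAut E.S) s ∈ an X P := by
  rintro _ ⟨g, σ, h, rfl⟩ s ⟨m, α, hm, hα, hs⟩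
  refine ⟨m, X.lin g * ⟨E.gal σ α, E.gal_mem σ α α.2⟩ * X.lin g⁻¹, hm, ?_, fun R hR => ?_⟩
  · change _ = m • cj X g (E.gal σ s)
    rw [cj_apply, Subring.coe_mul, Subring.coe_mul]
    change (X.lin g : E.S) * E.gal σ α * (X.lin g⁻¹ : E.S) = _
    rw [hα, map_nsmul, mul_smul_comm, smul_mul_assoc]
  · rw [act_mul, act_mul, ← lin_inv X g (mem_Mo X |>.1 hR g σ h), ← sg_act]
    exact ((hs R hR).map (sg A σ)).map _

lemma an_right (X : QuotR E N G) (P : A.Pt (AlgebraicClosure K)) :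
    ∀ s ∈ an X P, ∀ b ∈ fixB (HP X P), s * b ∈ an X P := by
  rintro s ⟨m, α, hm, hα, hs⟩ b hb
  obtain ⟨k, hk, hkb⟩ := E.mult b
  refine ⟨m * k, α * ⟨k • b, hkb⟩, Nat.mul_pos hm hk, ?_, fun R hR => ?_⟩
  · rw [Subring.coe_mul, hα, smul_mul_assoc, mul_smul_comm, smul_smul]
  · rw [act_mul]
    refine hs _ (fun g σ h => ?_)
    rw [sg_act, lin_inv X g (mem_Mo X |>.1 hR g σ h), ← act_mul, ← act_mul]
    congr 2
    apply Subtype.ext
    rw [Subring.coe_mul, Subring.coe_mul]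
    change (X.lin g : E.S) * E.gal σ (k • b) * (X.lin g⁻¹ : E.S) = k • b
    rw [map_nsmul, mul_smul_comm, smul_mul_assoc, ← cj_apply]
    congr 1
    exact hb _ ⟨g, σ, h, rfl⟩

/-- there are only finitely many annihilators -/
theorem an_fin [Finite G] (X : QuotR E N G) : (Set.range (an X)).Finite := by
  have h1 : {H : Subgroup (RingAut E.S) | (H : Set (RingAut E.S)) ⊆ Tset X}.Finite := by
    refine Set.Finite.of_finite_image (f := fun H : Subgroup (RingAut E.S) =>
      (H : Set (RingAut E.S))) ((Tset_fin X).powerset.subset ?_) ?_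
    · rintro _ ⟨H, hH, rfl⟩
      exact hH
    · intro H _ H' _ h
      exact SetLike.coe_injective h
  refine (h1.biUnion (t := fun H => {I : Ideal E.S |
    (∀ h ∈ H, ∀ x ∈ I, (h : RingAut E.S) x ∈ I) ∧ ∀ x ∈ I, ∀ b ∈ fixB H, x * b ∈ I})
    (fun H hH => ?_)).subset ?_
  · have : Finite H := ((Tset_fin X).subset hH).to_subtype
    exact fin_ideals H
  · rintro _ ⟨P, rfl⟩
    exact Set.mem_biUnion (x := HP X P) (HP_sub X P) ⟨an_stable X P, an_right X P⟩

/-- endomorphisms defining the ideals -/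
lemma exists_e (E : EndAlg A) (I : Ideal E.S) : ∃ (e : E.R) (m : ℕ), 0 < m ∧
    (((m : E.R) - e : E.R) : E.S) ∈ I ∧ ∀ β ∈ I, β * (e : E.S) = 0 := by
  obtain ⟨ε, hε, h⟩ := exists_idem I
  obtain ⟨m, hm, hme⟩ := E.mult (1 - ε)
  refine ⟨⟨m • (1 - ε), hme⟩, m, hm, ?_, fun β hβ => ?_⟩
  · have : (((m : E.R) - ⟨m • (1 - ε), hme⟩ : E.R) : E.S) = m • ε := by
      rw [csb, cnt]
      change (m : E.S) - m • (1 - ε) = m • ε
      rw [smul_sub, nsmul_one, sub_sub_cancel]
    rw [this]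
    exact nsmul_mem hε m
  · change β * (m • (1 - ε)) = 0
    rw [mul_smul_comm, mul_sub, mul_one, h β hβ, sub_self, smul_zero]

end Pool.Agent.K1H82.KR
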