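import Pool.Agent.K1H82.KR.Rat
import Pool.Agent.K1H82.KQ.Loc

/-!
# The local Zariski closures
-/

set_option autoImplicit false
set_option linter.unusedSectionVars false

open MvPolynomial Pool.Agent.TH954.X Pool.Agent.K1H82.KM Filter Topology
open Pool.Agent.K1H82.KQ (EndAlg sg Val1 fld mem_fld aeval_mapV cont_aeval near1 fldL fldL_fin
  exists_pL IsBasP closureP closureP_trans)

namespace Pool.Agent.K1H82.KR

section near

variable {K : Type} [Field K] {n N : ℕ} {L E : Type} [NontriviallyNormedField L] [ProperSpace L]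
  [Field E] [Algebra L E] [FiniteDimensional L E] [TopologicalSpace E] [IsModuleTopology L E]
  [Algebra K E] [Algebra K L] [IsScalarTower K L E]

include L in
/-- a form which does not vanish at `P` does not vanish at the points near `P` -/
theorem near2 {f : MvPolynomial (Fin n) K} {δ : ℕ} (hf : f.IsHomogeneous δ) (A : AbVar K n)
    (P : A.Pt E) (h : aeval P.1 f ≠ 0) :
    ∃ W ∈ 𝓝 (0 : A.Pt E).1, ∀ R : A.Pt E, Nr W R.1 → aeval (P + R).1 f ≠ 0 := by
  have := topring L E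
  obtain ⟨ℓ, hℓ⟩ := LinearMap.exists_leftInverse_of_injective (Algebra.linearMap L E)
    (LinearMap.ker_eq_bot.2 (algebraMap L E).injective)
  have hℓ1 : ∀ z : L, ℓ (algebraMap L E z) = z := fun z => LinearMap.congr_fun hℓ z
  have hℓc : Continuous ℓ := IsModuleTopology.continuous_of_linearMap ℓ
  set s : E := aeval P.1 f with hs
  set Ψ : (Fin n → E) → L := fun u => ℓ (s⁻¹ * aeval u f) with hΨ
  have hΨc : Continuous Ψ := hℓc.comp (continuous_const.mul (cont_aeval (L := L) f))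
  have hΨ1 : Ψ P.1 = 1 := by
    simp only [hΨ]
    rw [← hs, inv_mul_cancel₀ h, ← map_one (algebraMap L E), hℓ1]
  have h1 : Ψ ⁻¹' {z | z ≠ 0} ∈ 𝓝 P.1 := hΨc.continuousAt.preimage_mem_nhds (by
    rw [hΨ1]
    exact isOpen_ne.mem_nhds one_ne_zero)
  obtain ⟨W1, hW1, W2, hW2, h12⟩ := cont_add (L := L) A P 0 (W := Ψ ⁻¹' {z | z ≠ 0}) (by
    rw [add_zero]
    exact h1)
  refine ⟨W2, hW2, fun R hR h0 => ?_⟩
  obtain ⟨t, ht, ht'⟩ := h12 P R ⟨1, one_ne_zero, by
    rw [one_smul]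
    exact mem_of_mem_nhds hW1⟩ hR
  apply ht'
  change ℓ (s⁻¹ * aeval (t • (P + R).1) f) = 0
  rw [aeval_smul' hf, h0, mul_zero, mul_zero, map_zero]

end near

variable {K : Type} [Field K] {n N : ℕ} {A : AbVar K n} {E : EndAlg A} {G : Type} [Group G]

/-- the polynomials which vanish at the images of the points `P + e Q` -/
def ZIe (X : QuotR E N G) (P : A.Pt (AlgebraicClosure K)) (e : E.R) :
    Set (MvPolynomial (Fin N) K) :=
  {f | ∀ (Q : A.Pt (AlgebraicClosure K)) (z : Fin N → AlgebraicClosure K),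
    Val1 X.Fam (P + E.act e Q).1 z → ∀ a : AlgebraicClosure K, aeval (a • z) f = 0}

lemma off_up {eqW : Set (MvPolynomial (Fin N) K)} {y : Fin N → K} :
    Off eqW (up y) ↔ ∃ h ∈ eqW, eval y h ≠ 0 := by
  unfold Off
  refine exists_congr (fun h => and_congr_right (fun _ => ?_))
  exact not_congr (eval_up_iff y h)

theorem loc1 [NumberField K] (X : QuotR E N G) {L : Type}
    [NontriviallyNormedField L] [CompleteSpace L] (σ : K →+* L) (hσ : DenseRange σ)
    (f : MvPolynomial (Fin N) K) {U : Set (Fin N → L)} (hU : IsOpen U) (h0 : (0 : Fin N → L) ∉ U)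
    (hf : ∀ y : Fin N → K, y ≠ 0 → (∀ g ∈ X.eqX, eval y g = 0) → (∃ h ∈ X.eqW, eval y h ≠ 0) →
      (∃ c : L, c ≠ 0 ∧ (fun i => c * σ (y i)) ∈ U) → ∀ a : K, eval (a • y) f = 0)
    (P : A.Pt (AlgebraicClosure K)) (y : Fin N → K) (hy : Val1 X.Fam P.1 (up y))
    (ho : Off X.eqW (up y)) {c0 : L} (hc0 : (fun i => c0 * σ (y i)) ∈ U) (e : E.R)
    (he : ∀ β ∈ an X P, β * (e : E.S) = 0) : f ∈ ZIe X P e := by
  have hprop : ProperSpace L := W279.Tri.properSpace_of_denseRange σ hσ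
  let _ : Algebra K L := σ.toAlgebra
  let φ : AlgebraicClosure K →ₐ[K] AlgebraicClosure L := IsAlgClosed.lift
  have hfin : FiniteDimensional L (fldL φ P) := fldL_fin φ P
  let _ : TopologicalSpace (fldL φ P) := moduleTopology L (fldL φ P)
  have : IsModuleTopology L (fldL φ P) := ⟨rfl⟩
  set ψ : fldL φ P →ₐ[K] AlgebraicClosure L := (fldL φ P).val.restrictScalars K with hψ
  obtain ⟨P', hP'⟩ := exists_pL φ P P (mem_fld P)
  have hup : ∀ y : Fin N → K, mapV φ (up y) = mapV ψ (fun i => algebraMap K (fldL φ P) (y i)) := by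
    intro y
    funext i
    change φ (algebraMap K (AlgebraicClosure K) (y i)) = ψ (algebraMap K (fldL φ P) (y i))
    rw [AlgHom.commutes, AlgHom.commutes]
  have hval : ∀ (R : A.Pt (AlgebraicClosure K)) (R' : A.Pt (fldL φ P)) (y : Fin N → K),
      mapPt A ψ R' = mapPt A φ R → Val1 X.Fam R.1 (up y) →
      Val1 X.Fam R'.1 (fun i => algebraMap K (fldL φ P) (y i)) := by
    intro R R' y hR hv
    refine Val1.of_map ψ ?_
    have h1 := hv.map φ
    rw [hup] at h1
    have h2 : mapV φ R.1 = mapV ψ R'.1 := (congrArg Subtype.val hR).symm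
    rw [h2] at h1
    exact h1
  have hnz : ∀ (R : A.Pt (AlgebraicClosure K)) (R' : A.Pt (fldL φ P))
      (g : MvPolynomial (Fin n) K), mapPt A ψ R' = mapPt A φ R →
      (aeval R'.1 g ≠ 0 ↔ aeval R.1 g ≠ 0) := by
    intro R R' g hR
    have h2 : mapV φ R.1 = mapV ψ R'.1 := (congrArg Subtype.val hR).symm
    have h3 : φ (aeval R.1 g) = ψ (aeval R'.1 g) := by
      rw [← aeval_mapV, ← aeval_mapV, h2]
    rw [not_iff_not, ← map_eq_zero_iff ψ ψ.toRingHom.injective, ← h3,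
      map_eq_zero_iff φ φ.toRingHom.injective]
  obtain ⟨W, hW, hnear⟩ := near1 X.Fam_hom A P' y (hval P P' y hP' hy) hU h0 hc0
  -- the points near `P` have an image outside `W`
  obtain ⟨C0, hC0, s0, hs0, hCs0⟩ := hy.exists_ne
  obtain ⟨g0, hg0, hg0'⟩ := ho
  obtain ⟨δ0, hδ0⟩ := X.homW g0 hg0
  obtain ⟨j0, hj0⟩ := Function.ne_iff.1 hy.ne_zero
  have hcomp : ∀ u : Fin n → AlgebraicClosure K,
      aeval u (aeval C0 g0) = aeval (fun c => aeval u (C0 c)) g0 := fun u =>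
    MvPolynomial.comp_aeval_apply (f := C0)
      (aeval u : MvPolynomial (Fin n) K →ₐ[K] AlgebraicClosure K) _
  have hhom0 : (C0 j0 * aeval C0 g0).IsHomogeneous (X.d + X.d * δ0) :=
    (X.Fam_hom C0 hC0 j0).mul (hδ0.aeval C0 (X.Fam_hom C0 hC0))
  have hne0 : aeval P.1 (C0 j0 * aeval C0 g0) ≠ 0 := by
    rw [map_mul, hcomp, hCs0, aeval_smul' hδ0]
    refine mul_ne_zero ?_ (mul_ne_zero (pow_ne_zero _ hs0) hg0')
    rw [congrFun hCs0 j0]
    exact mul_ne_zero hs0 hj0
  obtain ⟨W', hW', hnear'⟩ := near2 (L := L) hhom0 A P' ((hnz P P' _ hP').2 hne0)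
  -- the basis of neighbourhoods
  set V : Set (Fin n → fldL φ P) → Set (A.Pt (AlgebraicClosure K)) := fun W =>
    {R | R ∈ Mo X P ∧ ∃ R' : A.Pt (fldL φ P), mapPt A ψ R' = mapPt A φ R ∧ Nr W R'.1} with hV
  have hmz : mapPt A ψ (0 : A.Pt (fldL φ P)) = mapPt A φ (0 : A.Pt (AlgebraicClosure K)) := by
    change mapH A ψ 0 = mapH A φ 0
    rw [map_zero, map_zero]
  have hms : ∀ (R R2 : A.Pt (AlgebraicClosure K)) (R' R2' : A.Pt (fldL φ P)),
      mapPt A ψ R' = mapPt A φ R → mapPt A ψ R2' = mapPt A φ R2 →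
      mapPt A ψ (R' - R2') = mapPt A φ (R - R2) := by
    intro R R2 R' R2' h1 h2
    rw [(map_add_sub A ψ R' R2').2, (map_add_sub A φ R R2).2, h1, h2]
  have hma : ∀ (R R2 : A.Pt (AlgebraicClosure K)) (R' R2' : A.Pt (fldL φ P)),
      mapPt A ψ R' = mapPt A φ R → mapPt A ψ R2' = mapPt A φ R2 →
      mapPt A ψ (R' + R2') = mapPt A φ (R + R2) := by
    intro R R2 R' R2' h1 h2
    rw [(map_add_sub A ψ R' R2').1, (map_add_sub A φ R R2).1, h1, h2]
  have hbas : IsBasP A {U | ∃ W ∈ 𝓝 (0 : A.Pt (fldL φ P)).1, U = V W} := by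
    refine ⟨⟨_, Set.univ, univ_mem, rfl⟩, ?_, ?_, ?_⟩
    · rintro _ ⟨W, hW, rfl⟩
      exact ⟨(Mo X P).zero_mem, 0, hmz, 1, one_ne_zero, by
        rw [one_smul]
        exact mem_of_mem_nhds hW⟩
    · rintro _ ⟨W, hW, rfl⟩
      obtain ⟨W1, hW1, W2, hW2, h12⟩ := cont_sub (L := L) A 0 0 (W := W) (by rwa [sub_zero])
      refine ⟨_, ⟨W1 ∩ W2, inter_mem hW1 hW2, rfl⟩, ?_⟩
      rintro R ⟨hR, R', hR', hR2⟩ R1 ⟨hR1, R1', hR1', hR12⟩
      exact ⟨(Mo X P).sub_mem hR hR1, R' - R1', hms _ _ _ _ hR' hR1',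
        h12 R' R1' (hR2.mono Set.inter_subset_left) (hR12.mono Set.inter_subset_right)⟩
    · rintro _ ⟨W, hW, rfl⟩ _ ⟨W', hW', rfl⟩
      refine ⟨_, ⟨W ∩ W', inter_mem hW hW', rfl⟩, ?_⟩
      rintro R ⟨hR, R', hR', hR2⟩
      exact ⟨⟨hR, R', hR', hR2.mono Set.inter_subset_left⟩,
        ⟨hR, R', hR', hR2.mono Set.inter_subset_right⟩⟩
  obtain ⟨Z, H, hZ, hHZ, ⟨_, ⟨W0, hW0, rfl⟩, hVH⟩, hHg⟩ := closureP hbas
  -- the image of `e` is in `H`
  have heH : ∀ Q, E.act e Q ∈ H := by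
    obtain ⟨β, m, hm, hβ1, hβ2⟩ := E.poinc Z hZ H hHZ
    have hβ : (β : E.S) ∈ an X P := by
      rw [mem_an]
      intro R hR
      obtain ⟨R', hR'⟩ := exists_pL φ P R (fun c => Mo_fld X hR c)
      obtain ⟨k, hk, hk'⟩ := exists_mult (L := L) A R' hW0
      have h1 : k • R ∈ H := by
        refine hVH ⟨(Mo X P).zsmul_mem hR k, k • R', ?_, hk'⟩
        change mapH A ψ (k • R') = mapH A φ (k • R)
        rw [map_zsmul, map_zsmul, mapH_apply, mapH_apply, hR']
      have h2 := hβ1 _ h1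
      rw [map_zsmul] at h2
      refine ⟨m * k.natAbs, Nat.mul_pos hm (Int.natAbs_pos.2 hk), ?_⟩
      rw [mul_smul]
      rcases Int.natAbs_eq k with h3 | h3
      · rw [h3, natCast_zsmul] at h2
        exact h2
      · rw [h3, neg_smul, natCast_zsmul, smul_neg, neg_eq_zero] at h2
        exact h2
    intro Q
    obtain ⟨Q0, hQ0⟩ := A.div (AlgebraicClosure K) Q m hm
    have h3 : E.act β (E.act e Q0) = 0 := by
      rw [← act_mul]
      have : β * e = 0 := Subtype.ext (he _ hβ)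
      rw [this, map_zero]
      rfl
    have h4 := hβ2 _ h3
    rw [← map_nsmul] at h4
    have h5 : m • Q0 = Q := hQ0
    rwa [h5] at h4
  have key : ∀ k, ∀ C ∈ X.Fam, ∀ Q : A.Pt (AlgebraicClosure K),
      aeval (P + E.act e Q).1 (aeval C (homogeneousComponent k f)) = 0 := by
    intro k C hC Q
    have hhom : (MvPolynomial.map (algebraMap K (AlgebraicClosure K))
        (aeval C (homogeneousComponent k f))).IsHomogeneous (X.d * k) :=
      ((homogeneousComponent_isHomogeneous k f).aeval C (X.Fam_hom C hC)).map _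
    have hev : ∀ u : Fin n → AlgebraicClosure K, eval u (MvPolynomial.map
        (algebraMap K (AlgebraicClosure K)) (aeval C (homogeneousComponent k f))) =
        aeval u (aeval C (homogeneousComponent k f)) := by
      intro u
      rw [aeval_def u, eval₂_eq_eval_map]
    rw [← hev]
    refine closureP_trans hbas hHg P ⟨W ∩ W', inter_mem hW hW', rfl⟩ hhom ?_ _ (heH Q)
    rintro R ⟨hR, R', hR', hRn⟩
    rw [hev]
    have hn := (hnz (P + R) (P' + R') _ (hma _ _ _ _ hP' hR')).1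
      (hnear' R' (hRn.mono Set.inter_subset_right))
    rw [map_mul] at hn
    have hoff : ∀ x, Val1 X.Fam (P + R).1 x → Off X.eqW x := by
      intro x hx
      refine ⟨g0, hg0, fun h0 => right_ne_zero_of_mul hn ?_⟩
      obtain ⟨s, hs⟩ := hx.1 C0 hC0
      rw [hcomp, hs, aeval_smul' hδ0, h0, mul_zero]
    obtain ⟨y', hy', hy'e, hy'v⟩ := rat1 X P y hy ⟨g0, hg0, hg0'⟩ R hR
      ⟨C0, hC0, j0, left_ne_zero_of_mul hn⟩ hoff
    obtain ⟨c, hc, hcU⟩ := hnear R' (hRn.mono Set.inter_subset_left) y'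
      (hval _ _ y' (hma _ _ _ _ hP' hR') hy'v)
    have h2 : eval y' (homogeneousComponent k f) = 0 :=
      hom_comp_zero (hf y' hy'.ne_zero hy'e (off_up.1 (hoff _ hy'v)) ⟨c, hc, hcU⟩) k
    obtain ⟨s, hs⟩ := hy'v.1 C hC
    have h3 : aeval (P + R).1 (aeval C (homogeneousComponent k f)) =
        aeval (fun c => aeval (P + R).1 (C c)) (homogeneousComponent k f) :=
      MvPolynomial.comp_aeval_apply (f := C)
        (aeval (P + R).1 : MvPolynomial (Fin n) K →ₐ[K] AlgebraicClosure K) _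
    rw [h3, hs, aeval_smul' (homogeneousComponent_isHomogeneous k f),
      (eval_up_iff y' _).2 h2, mul_zero]
  rintro Q z hz a
  refine aeval_of_comp (fun k => ?_) a
  obtain ⟨C, hC, s, hs, hCs⟩ := hz.exists_ne
  have h1 := key k C hC Q
  have h3 : aeval (P + E.act e Q).1 (aeval C (homogeneousComponent k f)) =
      aeval (fun c => aeval (P + E.act e Q).1 (C c)) (homogeneousComponent k f) :=
    MvPolynomial.comp_aeval_apply (f := C)
      (aeval (P + E.act e Q).1 : MvPolynomial (Fin n) K →ₐ[K] AlgebraicClosure K) _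
  rw [h3, hCs, aeval_smul' (homogeneousComponent_isHomogeneous k f)] at h1
  exact (mul_eq_zero.1 h1).resolve_left (pow_ne_zero _ hs)

end Pool.Agent.K1H82.KR
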