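import Pool.Agent.K1H82.KR.Gen

/-!
# Rationality of the images of the twisted groups
-/

set_option autoImplicit false
set_option linter.unusedSectionVars false

open MvPolynomial Pool.Agent.TH954.X Pool.Agent.K1H82.KM
open Pool.Agent.K1H82.KQ (EndAlg sg Val1 fld mem_fld aeval_mapV)

namespace Pool.Agent.K1H82.KR

variable {K : Type} [Field K] {n N : ℕ} {A : AbVar K n} {E : EndAlg A} {G : Type} [Group G]

lemma aeval_smul_eq1 (X : QuotR E N G) {F : Type} [Field F] [Algebra K F] {x : Fin N → F}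
    (h : ∀ g ∈ X.eqX, aeval x g = 0) (s : F) : ∀ g ∈ X.eqX, aeval (s • x) g = 0 := by
  intro g hg
  obtain ⟨d, hd⟩ := X.homX g hg
  rw [aeval_smul' hd, h g hg, mul_zero]

lemma Off.smul (X : QuotR E N G) {F : Type} [Field F] [Algebra K F] {x : Fin N → F}
    (h : Off X.eqW x) {s : F} (hs : s ≠ 0) : Off X.eqW (s • x) := by
  obtain ⟨g, hg, h⟩ := h
  obtain ⟨d, hd⟩ := X.homW g hg
  refine ⟨g, hg, ?_⟩
  rw [aeval_smul' hd]
  exact mul_ne_zero (pow_ne_zero _ hs) h

/-- the conjugates of a point with rational image -/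
lemma conj_ap (X : QuotR E N G) {P : A.Pt (AlgebraicClosure K)} {y : Fin N → K}
    (hy : Val1 X.Fam P.1 (up y)) (ho : Off X.eqW (up y))
    (σ : AlgebraicClosure K ≃ₐ[K] AlgebraicClosure K) :
    ∃ g, sg A σ P = ap X g P := by
  have h1 : Val1 X.Fam (sg A σ P).1 (up y) := by
    have h2 := hy.map σ.toAlgHom
    have h3 : mapV σ.toAlgHom (up y) = up y := by
      funext c
      change σ (algebraMap K (AlgebraicClosure K) (y c)) = _
      rw [AlgEquiv.commutes]
      rfl
    rw [h3] at h2
    exact h2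
  exact (X.fib P _ _ hy ho).1 h1

/-- The images of the points `P + R`, `R` in the twisted group, are rational, if they are outside
`W`. -/
theorem rat1 [CharZero K] (X : QuotR E N G) (P : A.Pt (AlgebraicClosure K)) (y : Fin N → K)
    (hy : Val1 X.Fam P.1 (up y)) (ho : Off X.eqW (up y)) (R : A.Pt (AlgebraicClosure K))
    (hR : R ∈ Mo X P) (hd : Def1 X.Fam (P + R).1)
    (ho' : ∀ x, Val1 X.Fam (P + R).1 x → Off X.eqW x) :
    ∃ y' : Fin N → K, Normed y' ∧ (∀ g ∈ X.eqX, eval y' g = 0) ∧
      Val1 X.Fam (P + R).1 (up y') := by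
  obtain ⟨x, hx0, hxe, hx⟩ := X.total (P + R) hd
  obtain ⟨s, x1, hs, hx1, rfl⟩ := exists_normed hx0
  have hxe1 : ∀ g ∈ X.eqX, aeval x1 g = 0 := by
    have := aeval_smul_eq1 X hxe s⁻¹
    rwa [inv_smul_smul₀ hs] at this
  have hv1 : Val1 X.Fam (P + R).1 x1 := by
    have := hx.smul (inv_ne_zero hs)
    rwa [inv_smul_smul₀ hs] at this
  have hfix : ∀ φ : AlgebraicClosure K ≃ₐ[K] AlgebraicClosure K, ∀ c, φ (x1 c) = x1 c := by
    intro φ c
    obtain ⟨g, hg⟩ := conj_ap X hy ho φ
    have h1 : ap X g⁻¹ (sg A φ P) = P := by rw [hg, ← ap_mul, inv_mul_cancel, ap_one]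
    have h2 : sg A φ R = E.act (X.lin g) R := by
      have h3 := lin_inv X g⁻¹ (hR g⁻¹ φ h1)
      rwa [inv_inv] at h3
    have h4 : Val1 X.Fam (sg A φ (P + R)).1 x1 := by
      refine (X.fib _ _ _ hv1 (ho' _ hv1)).2 ⟨g, ?_⟩
      rw [map_add, hg, h2]
      unfold ap
      rw [map_add]
      abel
    have h5 := hv1.map φ.toAlgHom
    obtain ⟨t, -, ht⟩ := h4.unique h5
    have h6 : mapV φ.toAlgHom x1 = x1 := normed_unique (Normed.mapV _ hx1) hx1 ht
    exact congrFun h6 c
  have hgal : IsGalois K (AlgebraicClosure K) := inferInstance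
  have hmem : ∀ c, ∃ z : K, algebraMap K (AlgebraicClosure K) z = x1 c := by
    intro c
    have := (InfiniteGalois.mem_range_algebraMap_iff_fixed (k := K) (K := AlgebraicClosure K)
      (x1 c)).2 (fun φ => hfix φ c)
    exact this
  choose y' hy' using hmem
  have hup : up y' = x1 := funext hy'
  refine ⟨y', ?_, fun g hg => ?_, ?_⟩
  · obtain ⟨i, hi, hj⟩ := hx1
    refine ⟨i, ?_, fun j hji => ?_⟩
    · apply (algebraMap K (AlgebraicClosure K)).injective
      rw [hy', hi, map_one]
    · apply (algebraMap K (AlgebraicClosure K)).injective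
      rw [hy', hj j hji, map_zero]
  · rw [← eval_up_iff, hup]
    exact hxe1 g hg
  · rw [hup]
    exact hv1

/-- the points of the twisted group are defined over the field generated by the coordinates -/
lemma Mo_fld [CharZero K] (X : QuotR E N G) {P R : A.Pt (AlgebraicClosure K)} (hR : R ∈ Mo X P)
    (c : Fin n) : R.1 c ∈ fld P := by
  have hgal : IsGalois K (AlgebraicClosure K) := inferInstance
  rw [← InfiniteGalois.fixedField_fixingSubgroup (fld P)]
  rw [IntermediateField.mem_fixedField_iff]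
  intro σ hσ
  have h1 : sg A σ P = P := by
    apply Subtype.ext
    funext c
    exact (IntermediateField.mem_fixingSubgroup_iff (fld P) σ).1 hσ _ (mem_fld P c)
  have h2 := hR 1 σ (by rw [ap_one, h1])
  rw [map_one, act_one] at h2
  exact congrArg (fun Q : A.Pt (AlgebraicClosure K) => Q.1 c) h2

section center

variable [Fintype G]

/-- the sum of the translations -/
noncomputable def cen (X : QuotR E N G) : A.Pt (AlgebraicClosure K) := ∑ g, X.tr g

lemma sg_cen (X : QuotR E N G) (σ : AlgebraicClosure K ≃ₐ[K] AlgebraicClosure K) :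
    sg A σ (cen X) = cen X := by
  unfold cen
  rw [map_sum]
  exact Fintype.sum_equiv (X.galG σ).toEquiv _ _ (fun g => (X.gal_tr σ g).symm)

lemma act_cen (X : QuotR E N G) (g : G) :
    E.act (X.lin g) (cen X) = cen X - Fintype.card G • X.tr g := by
  unfold cen
  rw [map_sum]
  have h1 : ∀ h, E.act (X.lin g) (X.tr h) = X.tr (g * h) - X.tr g := by
    intro h
    rw [X.tr_mul, add_sub_cancel_right]
  simp_rw [h1]
  rw [Finset.sum_sub_distrib, Finset.sum_const, Finset.card_univ]
  congr 1
  exact Fintype.sum_equiv (Equiv.mulLeft g) _ _ (fun _ => rfl)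

lemma nP_mem (X : QuotR E N G) (P : A.Pt (AlgebraicClosure K)) :
    Fintype.card G • P - cen X ∈ Mo X P := by
  intro g σ h
  rw [map_sub, map_nsmul, sg_cen, map_sub, map_nsmul, act_cen]
  have h1 : E.act (X.lin g) (sg A σ P) = P - X.tr g := by
    rw [eq_sub_iff_add_eq]
    exact h
  rw [h1, smul_sub]
  abel

end center

end Pool.Agent.K1H82.KR
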